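import Mathlib

/-!
Squad KK (MP_747bc0_co), block K: counting library. Everything is proved; `n = Fintype.card V`,
counts are `Set.ncard`.
-/

set_option autoImplicit false

namespace Pool.Agent.KK

open Finset Function

/-! ### Cardinalities of sets of pairs and of functions -/

theorem ncard_equiv {α β : Type} (e : α ≃ β) (S : Set α) (T : Set β)
    (h : ∀ x, x ∈ S ↔ e x ∈ T) : S.ncard = T.ncard :=
  Nat.card_congr (e.subtypeEquiv h)

theorem ncard_fib {A B : Type} [Fintype A] [Fintype B] (D : Set (A × B)) :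
    D.ncard = ∑ a, {b | (a, b) ∈ D}.ncard := by
  have h : D ≃ Σ x : A, {y : B | (x, y) ∈ D} := Equiv.setProdEquivSigma D
  have h1 : D.ncard = Nat.card (Σ x : A, {y : B | (x, y) ∈ D}) := Nat.card_congr h
  rw [h1, Nat.card_sigma]
  rfl

theorem ncard_fib' {A B : Type} [Fintype A] [Fintype B] (D : Set (A × B)) :
    D.ncard = ∑ b, {a | (a, b) ∈ D}.ncard := by
  rw [ncard_equiv (Equiv.prodComm A B) D {p | (p.2, p.1) ∈ D} (fun x => Iff.rfl), ncard_fib]
  rfl

theorem ncard_pi {ι B : Type} [Fintype ι] [Fintype B] (S : ι → Set B) :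
    {g : ι → B | ∀ j, g j ∈ S j}.ncard = ∏ j, (S j).ncard := by
  have h : {g : ι → B | ∀ j, g j ∈ S j} ≃ ∀ j, S j :=
    Equiv.subtypePiEquivPi (p := fun j b => b ∈ S j)
  have h1 : {g : ι → B | ∀ j, g j ∈ S j}.ncard = Nat.card (∀ j, S j) := Nat.card_congr h
  rw [h1, Nat.card_pi]
  rfl

theorem ncard_pow {ι B : Type} [Fintype ι] [Fintype B] (S : Set B) :
    {g : ι → B | ∀ j, g j ∈ S}.ncard = S.ncard ^ Fintype.card ι := by
  rw [ncard_pi fun _ => S, prod_const, card_univ]

theorem ncard_univ_fun {ι B : Type} [Fintype ι] [Fintype B] :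
    (Set.univ : Set (ι → B)).ncard = Fintype.card B ^ Fintype.card ι := by
  classical
  rw [Set.ncard_univ, Nat.card_eq_fintype_card, Fintype.card_fun]

/-! ### K1: the theorem of Erdos on complete `k`-partite hypergraphs (homomorphism form) -/

/-- Power mean: `t`-fold blow-up of the second coordinate. -/
theorem fiber_pow {A B : Type} [Fintype A] [Fintype B] (D : Set (A × B)) (t : ℕ) (d : ℝ)
    (hd : 0 ≤ d) (hD : d * (Fintype.card A * Fintype.card B) ≤ D.ncard) :
    d ^ t * (Fintype.card A * (Fintype.card B : ℝ) ^ t) ≤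
      {p : A × (Fin t → B) | ∀ j, (p.1, p.2 j) ∈ D}.ncard := by
  have h1 : {p : A × (Fin t → B) | ∀ j, (p.1, p.2 j) ∈ D}.ncard =
      ∑ a, {b | (a, b) ∈ D}.ncard ^ t := by
    rw [ncard_fib]
    refine sum_congr rfl fun a _ => ?_
    have h2 := ncard_pow (ι := Fin t) {b | (a, b) ∈ D}
    rw [Fintype.card_fin] at h2
    exact h2
  rw [h1]
  push_cast
  rw [ncard_fib] at hD
  push_cast at hD
  obtain ⟨f, hf⟩ : ∃ f : A → ℝ, f = fun a => ({b | (a, b) ∈ D}.ncard : ℝ) := ⟨_, rfl⟩
  have hf0 : ∀ a ∈ (univ : Finset A), 0 ≤ f a := by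
    intro a _
    rw [hf]
    exact Nat.cast_nonneg _
  have e1 : ∑ a, (({b | (a, b) ∈ D}.ncard : ℝ)) = ∑ a, f a := by rw [hf]
  have e2 : ∑ a, (({b | (a, b) ∈ D}.ncard : ℝ)) ^ t = ∑ a, f a ^ t := by rw [hf]
  rw [e1] at hD
  rw [e2]
  cases t with
  | zero => simp
  | succ s =>
    rcases isEmpty_or_nonempty A with hA | hA
    · simp
    · have hA0 : (0 : ℝ) < Fintype.card A := by exact_mod_cast Fintype.card_pos
      have h4 : (∑ a, f a) ^ (s + 1) / (Fintype.card A : ℝ) ^ s ≤ ∑ a, f a ^ (s + 1) := by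
        have := pow_sum_div_card_le_sum_pow (s := (univ : Finset A)) (f := f) hf0 s
        rwa [card_univ] at this
      refine le_trans ?_ h4
      rw [le_div_iff₀ (pow_pos hA0 s)]
      have h5 : (d * (Fintype.card A * Fintype.card B)) ^ (s + 1) ≤ (∑ a, f a) ^ (s + 1) :=
        pow_le_pow_left₀ (by positivity) hD _
      refine le_trans (le_of_eq ?_) h5
      rw [mul_pow, mul_pow]
      ring

/-- Exchange of the last two components. -/
def eqv3 (A B C : Type) : (A × B) × C ≃ (A × C) × B where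
  toFun q := ((q.1.1, q.2), q.1.2)
  invFun q := ((q.1.1, q.2), q.1.2)
  left_inv _ := rfl
  right_inv _ := rfl

/-- `(A × B) × (Fin k → B) ≃ A × (Fin (k + 1) → B)`. -/
def eqvc (A B : Type) (k : ℕ) : (A × B) × (Fin k → B) ≃ A × (Fin (k + 1) → B) :=
  (Equiv.prodAssoc A B _).trans ((Equiv.refl A).prodCongr (Fin.consEquiv (fun _ => B)))

/-- K1: blow-up of the coordinates `Fin k`, with a parameter type `A` (not blown up). -/
theorem erdosA (k t : ℕ) : ∀ (A V : Type) [Fintype A] [Fintype V] (D : Set (A × (Fin k → V)))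
    (d : ℝ), 0 ≤ d → d * (Fintype.card A * (Fintype.card V : ℝ) ^ k) ≤ D.ncard →
    d ^ (t ^ k) * (Fintype.card A * (Fintype.card V : ℝ) ^ (k * t)) ≤
      {p : A × (Fin k → Fin t → V) | ∀ s : Fin k → Fin t, (p.1, fun i => p.2 i (s i)) ∈ D}.ncard := by
  induction k with
  | zero =>
    intro A V _ _ D d hd hD
    rw [pow_zero, pow_one, Nat.zero_mul, pow_zero]
    rw [pow_zero] at hD
    have h1 : D.ncard =
        {p : A × (Fin 0 → Fin t → V) | ∀ s : Fin 0 → Fin t, (p.1, fun i => p.2 i (s i)) ∈ D}.ncard := by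
      refine ncard_equiv ((Equiv.refl A).prodCongr (Equiv.ofUnique _ _)) _ _ ?_
      rintro ⟨a, x⟩
      have h2 : ∀ (y : Fin 0 → Fin t → V) (s : Fin 0 → Fin t), (fun i => y i (s i)) = x :=
        fun y s => Subsingleton.elim _ _
      constructor
      · intro h s
        change (a, fun i => _) ∈ D
        rw [h2]
        exact h
      · intro h
        have h3 : (a, fun i => (Equiv.ofUnique (Fin 0 → V) (Fin 0 → Fin t → V) x) i
          ((default : Fin 0 → Fin t) i)) ∈ D := h default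
        rw [h2] at h3
        exact h3
    rw [← h1]
    exact hD
  | succ k ih =>
    intro A V _ _ D d hd hD
    obtain ⟨n, hn⟩ : ∃ n : ℝ, n = Fintype.card V := ⟨_, rfl⟩
    obtain ⟨D1, hD1⟩ : ∃ D1 : Set ((A × V) × (Fin k → V)),
        D1 = {q | (q.1.1, (Fin.cons q.1.2 q.2 : Fin (k + 1) → V)) ∈ D} := ⟨_, rfl⟩
    have c1 : D1.ncard = D.ncard := by
      rw [hD1]
      exact ncard_equiv (eqvc A V k) _ _ fun x => Iff.rfl
    have i1 := ih (A × V) V D1 d hd (by
      rw [c1]
      refine le_trans (le_of_eq ?_) hD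
      rw [Fintype.card_prod]
      push_cast
      ring)
    obtain ⟨D2, hD2⟩ : ∃ D2 : Set ((A × V) × (Fin k → Fin t → V)),
        D2 = {p | ∀ s : Fin k → Fin t, (p.1, fun i => p.2 i (s i)) ∈ D1} := ⟨_, rfl⟩
    rw [← hD2] at i1
    obtain ⟨D3, hD3⟩ : ∃ D3 : Set ((A × (Fin k → Fin t → V)) × V),
        D3 = {q | ((q.1.1, q.2), q.1.2) ∈ D2} := ⟨_, rfl⟩
    have c3 : D2.ncard = D3.ncard := by
      rw [hD3]
      exact ncard_equiv (eqv3 A V (Fin k → Fin t → V)) _ _ fun x => Iff.rfl
    have i2 := fiber_pow D3 t (d ^ (t ^ k)) (by positivity) (by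
      rw [← c3]
      refine le_trans (le_of_eq ?_) i1
      rw [Fintype.card_prod, Fintype.card_prod, Fintype.card_fun, Fintype.card_fun]
      push_cast
      rw [Fintype.card_fin, Fintype.card_fin, ← pow_mul, mul_comm t k]
      ring)
    have c4 : {p : (A × (Fin k → Fin t → V)) × (Fin t → V) | ∀ j, (p.1, p.2 j) ∈ D3}.ncard =
        {p : A × (Fin (k + 1) → Fin t → V) |
          ∀ s : Fin (k + 1) → Fin t, (p.1, fun i => p.2 i (s i)) ∈ D}.ncard := by
      refine ncard_equiv ((eqv3 A (Fin k → Fin t → V) (Fin t → V)).trans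
        (eqvc A (Fin t → V) k)) _ _ ?_
      rintro ⟨⟨a, x⟩, y⟩
      have h2 : ∀ (s : Fin (k + 1) → Fin t),
          (fun i => (Fin.cons y x : Fin (k + 1) → Fin t → V) i (s i)) =
            (Fin.cons (y (s 0)) (fun i => x i (s i.succ)) : Fin (k + 1) → V) := by
        intro s
        funext i
        refine Fin.cases ?_ (fun i => ?_) i
        · rfl
        · rfl
      constructor
      · intro h s
        change (a, fun i => (Fin.cons y x : Fin (k + 1) → Fin t → V) i (s i)) ∈ D
        rw [h2]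
        have h3 := h (s 0)
        rw [hD3] at h3
        change ((a, y (s 0)), x) ∈ D2 at h3
        rw [hD2] at h3
        have h4 := h3 (fun i => s i.succ)
        rw [hD1] at h4
        exact h4
      · intro h j
        rw [hD3]
        change ((a, y j), x) ∈ D2
        rw [hD2]
        intro s
        rw [hD1]
        change (a, (Fin.cons (y j) (fun i => x i (s i)) : Fin (k + 1) → V)) ∈ D
        have h3 : (a, fun i => (Fin.cons y x : Fin (k + 1) → Fin t → V) i
          ((Fin.cons j s : Fin (k + 1) → Fin t) i)) ∈ D := h (Fin.cons j s)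
        rw [h2] at h3
        exact h3
    rw [c4] at i2
    refine le_trans (le_of_eq ?_) i2
    rw [Fintype.card_prod, Fintype.card_fun, Fintype.card_fun, Fintype.card_fin, Fintype.card_fin,
      ← pow_mul, ← pow_succ]
    push_cast
    rw [Nat.add_mul, Nat.one_mul, pow_add, mul_comm k t, pow_mul]
    ring

/-- K1: `t`-fold blow-ups of a set of `k`-tuples of density `d` have density at least
`d ^ (t ^ k)`. -/
theorem erdos (k t : ℕ) (V : Type) [Fintype V] (D : Set (Fin k → V)) (d : ℝ) (hd : 0 ≤ d)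
    (hD : d * (Fintype.card V : ℝ) ^ k ≤ D.ncard) :
    d ^ (t ^ k) * (Fintype.card V : ℝ) ^ (k * t) ≤
      {x : Fin k → Fin t → V | ∀ s : Fin k → Fin t, (fun i => x i (s i)) ∈ D}.ncard := by
  have h1 := erdosA k t Unit V {p | p.2 ∈ D} d hd (by
    rw [Fintype.card_unit, Nat.cast_one, one_mul]
    refine le_trans hD (le_of_eq ?_)
    rw [ncard_equiv (Equiv.punitProd (Fin k → V)) {p : Unit × (Fin k → V) | p.2 ∈ D} D
      fun x => Iff.rfl])
  rw [Fintype.card_unit, Nat.cast_one, one_mul] at h1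
  refine le_trans h1 (le_of_eq ?_)
  rw [ncard_equiv (Equiv.punitProd (Fin k → Fin t → V))
    {p : Unit × (Fin k → Fin t → V) | ∀ s : Fin k → Fin t, (p.1, fun i => p.2 i (s i)) ∈
      {p : Unit × (Fin k → V) | p.2 ∈ D}}
    {x : Fin k → Fin t → V | ∀ s : Fin k → Fin t, (fun i => x i (s i)) ∈ D} fun x => Iff.rfl]

/-! ### K2: tuples which are not injective, or meet a small set -/

theorem ncard_union_bound {α J : Type} [Finite α] (s : Finset J) (S : J → Set α) :
    (⋃ j ∈ s, S j).ncard ≤ ∑ j ∈ s, (S j).ncard := by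
  classical
  induction s using Finset.induction_on with
  | empty => simp
  | insert a s ha ih =>
    rw [Finset.set_biUnion_insert, Finset.sum_insert ha]
    exact le_trans (Set.ncard_union_le _ _) (Nat.add_le_add_left ih _)

/-- Functions whose value at `i` is determined by the other values. -/
theorem ncard_dep {ι V : Type} [Fintype ι] [DecidableEq ι] [Fintype V] (i : ι)
    (φ : (ι → V) → V) (hφ : ∀ f g : ι → V, (∀ j, j ≠ i → f j = g j) → φ f = φ g) :
    {f : ι → V | f i = φ f}.ncard ≤ Fintype.card V ^ (Fintype.card ι - 1) := by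
  have h1 : {f : ι → V | f i = φ f}.ncard ≤ (Set.univ : Set ({x // x ≠ i} → V)).ncard := by
    refine Set.ncard_le_ncard_of_injOn (fun f x => f x.1) (fun _ _ => Set.mem_univ _) ?_
    intro f hf g hg h
    have h2 : ∀ j, j ≠ i → f j = g j := fun j hj => congrFun h ⟨j, hj⟩
    funext j
    by_cases hj : j = i
    · rw [hj]
      have hf' : f i = φ f := hf
      have hg' : g i = φ g := hg
      rw [hf', hg']
      exact hφ f g h2
    · exact h2 j hj
  rw [ncard_univ_fun] at h1
  have h3 : Fintype.card {x // x ≠ i} = Fintype.card ι - 1 := by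
    rw [Fintype.card_subtype_compl, Fintype.card_subtype_eq]
  rwa [h3] at h1

/-- K2: at most `(m ^ 2 + m |W|) n ^ (m - 1)` functions are not injective or meet `W`. -/
theorem ninj {ι V : Type} [Fintype ι] [DecidableEq ι] [Fintype V] (W : Finset V) :
    {f : ι → V | ¬ (Injective f ∧ ∀ i, f i ∉ W)}.ncard ≤
      (Fintype.card ι ^ 2 + Fintype.card ι * W.card) *
        Fintype.card V ^ (Fintype.card ι - 1) := by
  classical
  have h1 : {f : ι → V | ¬ (Injective f ∧ ∀ i, f i ∉ W)} ⊆
      (⋃ p ∈ (univ : Finset (ι × ι)), {f : ι → V | p.1 ≠ p.2 ∧ f p.1 = f p.2}) ∪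
      (⋃ p ∈ (univ : Finset ι) ×ˢ W, {f : ι → V | f p.1 = p.2}) := by
    intro f hf
    by_cases h : Injective f
    · right
      have h2 : ∃ i, f i ∈ W := by
        by_contra hc
        push Not at hc
        exact hf ⟨h, hc⟩
      obtain ⟨i, hi⟩ := h2
      exact Set.mem_biUnion (show (i, f i) ∈ (univ : Finset ι) ×ˢ W from
        Finset.mem_product.2 ⟨mem_univ _, hi⟩) rfl
    · left
      unfold Injective at h
      push Not at h
      obtain ⟨i, j, hij, hne⟩ := h
      exact Set.mem_biUnion (Finset.mem_coe.2 (mem_univ (i, j))) ⟨hne, hij⟩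
  refine le_trans (Set.ncard_le_ncard h1 (Set.toFinite _)) (le_trans (Set.ncard_union_le _ _) ?_)
  rw [add_mul]
  refine Nat.add_le_add (le_trans (ncard_union_bound _ _) ?_) (le_trans (ncard_union_bound _ _) ?_)
  · have h2 : ∀ p ∈ (univ : Finset (ι × ι)), {f : ι → V | p.1 ≠ p.2 ∧ f p.1 = f p.2}.ncard ≤
        Fintype.card V ^ (Fintype.card ι - 1) := by
      intro p _
      by_cases hp : p.1 = p.2
      · have : {f : ι → V | p.1 ≠ p.2 ∧ f p.1 = f p.2} = ∅ := by
          ext f
          constructor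
          · intro h
            exact absurd hp h.1
          · intro h
            exact absurd h (Set.notMem_empty f)
        rw [this, Set.ncard_empty]
        exact Nat.zero_le _
      · refine le_trans (Set.ncard_le_ncard (t := {f : ι → V | f p.1 = (fun g => g p.2) f})
          (fun f hf => hf.2) (Set.toFinite _)) ?_
        exact ncard_dep p.1 (fun g => g p.2) fun f g h => h p.2 (fun h2 => hp h2.symm)
    refine le_trans (Finset.sum_le_card_nsmul _ _ _ h2) ?_
    rw [card_univ, Fintype.card_prod, smul_eq_mul, sq]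
  · have h2 : ∀ p ∈ (univ : Finset ι) ×ˢ W, {f : ι → V | f p.1 = p.2}.ncard ≤
        Fintype.card V ^ (Fintype.card ι - 1) := by
      intro p _
      exact ncard_dep p.1 (fun _ => p.2) fun f g h => rfl
    refine le_trans (Finset.sum_le_card_nsmul _ _ _ h2) ?_
    rw [card_product, card_univ, smul_eq_mul]

/-- K2': a set of tuples of density `d` contains many injective tuples avoiding `W`. -/
theorem injAvoid {ι V : Type} [Fintype ι] [DecidableEq ι] [Fintype V] (W : Finset V)
    (D : Set (ι → V)) (d : ℝ) (hι : 0 < Fintype.card ι)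
    (hD : d * (Fintype.card V : ℝ) ^ Fintype.card ι ≤ D.ncard)
    (hn : 2 * ((Fintype.card ι : ℝ) ^ 2 + Fintype.card ι * W.card) ≤ d * Fintype.card V) :
    d / 2 * (Fintype.card V : ℝ) ^ Fintype.card ι ≤
      {f | f ∈ D ∧ Injective f ∧ ∀ i, f i ∉ W}.ncard := by
  have h1 : D.ncard ≤ {f | f ∈ D ∧ Injective f ∧ ∀ i, f i ∉ W}.ncard +
      {f : ι → V | ¬ (Injective f ∧ ∀ i, f i ∉ W)}.ncard := by
    refine le_trans (Set.ncard_le_ncard (t := {f | f ∈ D ∧ Injective f ∧ ∀ i, f i ∉ W} ∪
      {f : ι → V | ¬ (Injective f ∧ ∀ i, f i ∉ W)}) ?_ (Set.toFinite _)) (Set.ncard_union_le _ _)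
    intro f hf
    by_cases h : Injective f ∧ ∀ i, f i ∉ W
    · left
      exact ⟨hf, h⟩
    · right
      exact h
  have h2 := ninj (ι := ι) W
  have h1' : (D.ncard : ℝ) ≤ {f | f ∈ D ∧ Injective f ∧ ∀ i, f i ∉ W}.ncard +
      {f : ι → V | ¬ (Injective f ∧ ∀ i, f i ∉ W)}.ncard := by exact_mod_cast h1
  have h2' : ({f : ι → V | ¬ (Injective f ∧ ∀ i, f i ∉ W)}.ncard : ℝ) ≤
      ((Fintype.card ι : ℝ) ^ 2 + Fintype.card ι * W.card) *
        (Fintype.card V : ℝ) ^ (Fintype.card ι - 1) := by exact_mod_cast h2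
  have h3 : (Fintype.card V : ℝ) ^ Fintype.card ι =
      Fintype.card V * (Fintype.card V : ℝ) ^ (Fintype.card ι - 1) := by
    rw [← pow_succ', Nat.sub_add_cancel hι]
  have hn0 : 0 ≤ (Fintype.card V : ℝ) ^ (Fintype.card ι - 1) := by positivity
  have h4 := mul_le_mul_of_nonneg_right hn hn0
  rw [h3] at hD ⊢
  nlinarith

/-! ### K3, K4: averaging and pigeonhole -/

theorem sum_ind {A : Type} [Fintype A] (G : Set A) [DecidablePred (· ∈ G)] :
    ∑ a, (if a ∈ G then (1 : ℝ) else 0) = G.ncard := by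
  classical
  rw [Finset.sum_boole, Set.ncard_eq_toFinset_card']
  congr 2
  ext a
  simp

/-- K3: at least `d / 2 |A|` fibres have density at least `d / 2`. -/
theorem fiber_avg {A B : Type} [Fintype A] [Fintype B] (D : Set (A × B)) (d : ℝ)
    (hB : 0 < Fintype.card B) (hD : d * (Fintype.card A * Fintype.card B) ≤ D.ncard) :
    d / 2 * Fintype.card A ≤
      {a | d / 2 * Fintype.card B ≤ {b | (a, b) ∈ D}.ncard}.ncard := by
  classical
  have hA0 : (0 : ℝ) ≤ Fintype.card A := Nat.cast_nonneg _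
  have hB0 : (0 : ℝ) < Fintype.card B := by exact_mod_cast hB
  rcases lt_or_ge d 0 with hd | hd
  · refine le_trans ?_ (Nat.cast_nonneg _)
    nlinarith
  obtain ⟨G, hG⟩ : ∃ G : Set A, G = {a | d / 2 * Fintype.card B ≤ {b | (a, b) ∈ D}.ncard} :=
    ⟨_, rfl⟩
  rw [← hG]
  have h1 : ∀ a, ({b | (a, b) ∈ D}.ncard : ℝ) ≤
      (if a ∈ G then (1 : ℝ) else 0) * Fintype.card B + d / 2 * Fintype.card B := by
    intro a
    by_cases ha : a ∈ G
    · rw [if_pos ha, one_mul]
      have h2 : {b | (a, b) ∈ D}.ncard ≤ Nat.card B := Set.ncard_le_card _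
      rw [Nat.card_eq_fintype_card] at h2
      have h3 : ({b | (a, b) ∈ D}.ncard : ℝ) ≤ Fintype.card B := by exact_mod_cast h2
      have h4 : 0 ≤ d / 2 * (Fintype.card B : ℝ) := by positivity
      linarith
    · rw [if_neg ha, zero_mul, zero_add]
      rw [hG] at ha
      exact le_of_lt (not_le.1 ha)
  rw [ncard_fib] at hD
  push_cast at hD
  have h2 := Finset.sum_le_sum fun a (_ : a ∈ (univ : Finset A)) => h1 a
  rw [Finset.sum_add_distrib, ← Finset.sum_mul, sum_ind, Finset.sum_const, card_univ,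
    nsmul_eq_mul] at h2
  have h3 : d / 2 * Fintype.card A * Fintype.card B ≤ (G.ncard : ℝ) * Fintype.card B := by
    nlinarith
  exact le_of_mul_le_mul_right h3 hB0

/-- K4: pigeonhole. -/
theorem pigeon {α J : Type} [Finite α] [Fintype J] [Nonempty J] (D : Set α) (S : J → Set α)
    (h : ∀ x ∈ D, ∃ j, x ∈ S j) :
    ∃ j, (D.ncard : ℝ) ≤ Fintype.card J * (D ∩ S j).ncard := by
  classical
  have h1 : D ⊆ ⋃ j ∈ (univ : Finset J), D ∩ S j := by
    intro x hx
    obtain ⟨j, hj⟩ := h x hx
    exact Set.mem_biUnion (Finset.mem_coe.2 (mem_univ j)) ⟨hx, hj⟩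
  have h2 := le_trans (Set.ncard_le_ncard h1 (Set.toFinite _)) (ncard_union_bound _ _)
  obtain ⟨j, _, hj⟩ := Finset.exists_max_image (univ : Finset J) (fun j => (D ∩ S j).ncard)
    univ_nonempty
  refine ⟨j, ?_⟩
  have h3 := le_trans h2 (Finset.sum_le_card_nsmul _ _ _ hj)
  rw [card_univ, smul_eq_mul] at h3
  exact_mod_cast h3

/-! ### K1'': injective blow-ups avoiding a set -/

/-- Reading a function of two arguments as a function of the pair. -/
def unc {k t : ℕ} {V : Type} (x : Fin k → Fin t → V) : Fin k × Fin t → V := fun p => x p.1 p.2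

/-- K1'': for large `n` there are many injective `t`-fold blow-ups avoiding `W`. -/
theorem erdosInj (k t : ℕ) (hk : 0 < k) (ht : 0 < t) (V : Type) [Fintype V] (W : Finset V)
    (D : Set (Fin k → V)) (d : ℝ) (hd : 0 ≤ d) (hD : d * (Fintype.card V : ℝ) ^ k ≤ D.ncard)
    (hn : 2 * (((k * t : ℕ) : ℝ) ^ 2 + ((k * t : ℕ) : ℝ) * W.card) ≤
      d ^ (t ^ k) * Fintype.card V) :
    d ^ (t ^ k) / 2 * (Fintype.card V : ℝ) ^ (k * t) ≤
      {x : Fin k → Fin t → V | (∀ s : Fin k → Fin t, (fun i => x i (s i)) ∈ D) ∧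
        Injective (unc x) ∧ ∀ i j, x i j ∉ W}.ncard := by
  classical
  have h1 := erdos k t V D d hd hD
  obtain ⟨B, hB⟩ : ∃ B : Set (Fin k × Fin t → V),
    B = {y | ∀ s : Fin k → Fin t, (fun i => y (i, s i)) ∈ D} := ⟨_, rfl⟩
  have e1 : {x : Fin k → Fin t → V | ∀ s : Fin k → Fin t, (fun i => x i (s i)) ∈ D}.ncard =
      B.ncard := by
    rw [hB]
    exact ncard_equiv (Equiv.curry (Fin k) (Fin t) V).symm _ _ fun x => Iff.rfl
  have hc : Fintype.card (Fin k × Fin t) = k * t := by
    rw [Fintype.card_prod, Fintype.card_fin, Fintype.card_fin]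
  have h2 := injAvoid (ι := Fin k × Fin t) W B (d ^ (t ^ k)) (by
    rw [hc]
    exact Nat.mul_pos hk ht) (by
    rw [hc, ← e1]
    exact h1) (by
    rw [hc]
    exact hn)
  rw [hc] at h2
  refine le_trans h2 (le_of_eq ?_)
  congr 1
  refine ncard_equiv (Equiv.curry (Fin k) (Fin t) V) _ _ fun y => ?_
  rw [hB]
  constructor
  · rintro ⟨h3, h4, h5⟩
    exact ⟨h3, h4, fun i j => h5 (i, j)⟩
  · rintro ⟨h3, h4, h5⟩
    exact ⟨h3, h4, fun p => h5 p.1 p.2⟩

/-! ### K5: isoperimetry of the tuple graph -/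

/-- The steps out of `F` (change of one coordinate). -/
def outSet {m : ℕ} {V : Type} (F : Set (Fin m → V)) : Set ((Fin m → V) × Fin m × V) :=
  {p | p.1 ∈ F ∧ Function.update p.1 p.2.1 p.2.2 ∉ F}

/-- `y` below `j`, `x` from `j` on. -/
def mix {m : ℕ} {V : Type} (x y : Fin m → V) (j : ℕ) : Fin m → V :=
  fun i => if i.1 < j then y i else x i

theorem mix_succ {m : ℕ} {V : Type} (x y : Fin m → V) (j : Fin m) :
    mix x y (j.1 + 1) = Function.update (mix x y j.1) j (y j) := by
  funext i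
  unfold mix
  by_cases h : i = j
  · rw [h, Function.update_self, if_pos (Nat.lt_succ_self _)]
  · rw [Function.update_of_ne h]
    have h1 : i.1 ≠ j.1 := fun h2 => h (Fin.ext h2)
    by_cases h2 : i.1 < j.1
    · rw [if_pos h2, if_pos (by omega)]
    · rw [if_neg h2, if_neg (by omega)]

theorem exists_step {m : ℕ} {V : Type} {F : Set (Fin m → V)} {x y : Fin m → V} (hx : x ∈ F)
    (hy : y ∉ F) : ∃ j : Fin m, mix x y j.1 ∈ F ∧ mix x y (j.1 + 1) ∉ F := by
  classical
  have h1 : ∃ j, mix x y j ∉ F := by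
    refine ⟨m, ?_⟩
    have : mix x y m = y := by
      funext i
      unfold mix
      rw [if_pos i.2]
    rwa [this]
  have h2 := Nat.find_spec h1
  have h3 : Nat.find h1 ≤ m := Nat.find_min' h1 (by
    have : mix x y m = y := by
      funext i
      unfold mix
      rw [if_pos i.2]
    rwa [this])
  have h4 : Nat.find h1 ≠ 0 := by
    intro h
    rw [h] at h2
    have : mix x y 0 = x := by
      funext i
      unfold mix
      rw [if_neg (Nat.not_lt_zero _)]
    rw [this] at h2
    exact h2 hx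
  obtain ⟨j, hj⟩ := Nat.exists_eq_succ_of_ne_zero h4
  refine ⟨⟨j, by omega⟩, ?_, ?_⟩
  · have := Nat.find_min h1 (m := j) (by omega)
    exact not_not.1 this
  · have h5 : mix x y (j + 1) ∉ F := by rw [← Nat.succ_eq_add_one, ← hj]; exact h2
    exact h5

/-- K5: `|F| (n ^ m - |F|) ≤ |steps out of F| n ^ (m - 1)`. -/
theorem iso {m : ℕ} {V : Type} [Fintype V] (F : Set (Fin m → V)) :
    F.ncard * Fᶜ.ncard ≤ (outSet F).ncard * Fintype.card V ^ (m - 1) := by
  classical
  rw [← Set.ncard_prod]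
  have hch : ∀ p : (Fin m → V) × (Fin m → V), ∃ j : Option (Fin m), p ∈ F ×ˢ Fᶜ →
      ∃ j' : Fin m, j = some j' ∧ mix p.1 p.2 j'.1 ∈ F ∧ mix p.1 p.2 (j'.1 + 1) ∉ F := by
    intro p
    by_cases hp : p ∈ F ×ˢ Fᶜ
    · obtain ⟨j, hj⟩ := exists_step (x := p.1) (y := p.2) hp.1 hp.2
      exact ⟨some j, fun _ => ⟨j, rfl, hj⟩⟩
    · exact ⟨none, fun h => absurd h hp⟩
  choose J hJ using hch
  obtain ⟨T, hT⟩ : ∃ T : Set (((Fin m → V) × Fin m × V) × (Fin m → V)),
      T = {q | q.1 ∈ outSet F ∧ q.2 q.1.2.1 = q.1.2.2} := ⟨_, rfl⟩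
  have h1 : (F ×ˢ Fᶜ).ncard ≤ T.ncard := by
    rcases Set.eq_empty_or_nonempty (F ×ˢ Fᶜ) with h0 | ⟨p0, hp0⟩
    · rw [h0, Set.ncard_empty]
      exact Nat.zero_le _
    obtain ⟨j0, _⟩ := hJ p0 hp0
    obtain ⟨g, hg⟩ : ∃ g : (Fin m → V) × (Fin m → V) → ((Fin m → V) × Fin m × V) × (Fin m → V),
        g = fun p => ((mix p.1 p.2 ((J p).getD j0).1, (J p).getD j0, p.2 ((J p).getD j0)),
          fun i => if i.1 < ((J p).getD j0).1 then p.1 i else p.2 i) := ⟨_, rfl⟩
    refine Set.ncard_le_ncard_of_injOn g ?_ ?_ (Set.toFinite _)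
    · rintro p hp
      obtain ⟨j, hj, hj1, hj2⟩ := hJ p hp
      rw [hg, hT]
      refine ⟨⟨?_, ?_⟩, ?_⟩
      · change mix p.1 p.2 ((J p).getD j0).1 ∈ F
        rw [hj]
        exact hj1
      · change Function.update (mix p.1 p.2 ((J p).getD j0).1) ((J p).getD j0)
          (p.2 ((J p).getD j0)) ∉ F
        rw [hj, ← mix_succ]
        exact hj2
      · change (if (((J p).getD j0)).1 < ((J p).getD j0).1 then _ else _) = _
        rw [if_neg (lt_irrefl _)]
    · rintro p hp q hq h
      rw [hg] at h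
      obtain ⟨j, hj, hj1, hj2⟩ := hJ p hp
      obtain ⟨j', hj', hj1', hj2'⟩ := hJ q hq
      have e1 : mix p.1 p.2 ((J p).getD j0).1 = mix q.1 q.2 ((J q).getD j0).1 :=
        congrArg (fun z => z.1.1) h
      have e2 : (J p).getD j0 = (J q).getD j0 := congrArg (fun z => z.1.2.1) h
      have e3 : p.2 ((J p).getD j0) = q.2 ((J q).getD j0) := congrArg (fun z => z.1.2.2) h
      have e4 : (fun i : Fin m => if i.1 < ((J p).getD j0).1 then p.1 i else p.2 i) =
        fun i : Fin m => if i.1 < ((J q).getD j0).1 then q.1 i else q.2 i :=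
        congrArg (fun z => z.2) h
      rw [← e2] at e1 e3 e4
      refine Prod.ext ?_ ?_
      · funext i
        by_cases hi : i.1 < ((J p).getD j0).1
        · have := congrFun e4 i
          change (if i.1 < ((J p).getD j0).1 then p.1 i else p.2 i) =
            (if i.1 < ((J p).getD j0).1 then q.1 i else q.2 i) at this
          rw [if_pos hi, if_pos hi] at this
          exact this
        · have := congrFun e1 i
          unfold mix at this
          rw [if_neg hi, if_neg hi] at this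
          exact this
      · funext i
        by_cases hi : i.1 < ((J p).getD j0).1
        · have := congrFun e1 i
          unfold mix at this
          rw [if_pos hi, if_pos hi] at this
          exact this
        · have := congrFun e4 i
          change (if i.1 < ((J p).getD j0).1 then p.1 i else p.2 i) =
            (if i.1 < ((J p).getD j0).1 then q.1 i else q.2 i) at this
          rw [if_neg hi, if_neg hi] at this
          exact this
  refine le_trans h1 ?_
  rw [ncard_fib]
  have h2 : ∀ p : (Fin m → V) × Fin m × V, {r | (p, r) ∈ T}.ncard ≤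
      if p ∈ outSet F then Fintype.card V ^ (m - 1) else 0 := by
    intro p
    by_cases hp : p ∈ outSet F
    · rw [if_pos hp]
      refine le_trans (Set.ncard_le_ncard (t := {f : Fin m → V | f p.2.1 = (fun _ => p.2.2) f})
        (fun r hr => ?_) (Set.toFinite _)) ?_
      · have hr' : (p, r) ∈ T := hr
        rw [hT] at hr'
        exact hr'.2
      · have h3 := ncard_dep (V := V) p.2.1 (fun _ => p.2.2) fun f g h => rfl
        rwa [Fintype.card_fin] at h3
    · rw [if_neg hp]
      have : {r | (p, r) ∈ T} = ∅ := by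
        ext r
        constructor
        · intro hr
          have hr' : (p, r) ∈ T := hr
          rw [hT] at hr'
          exact absurd hr'.1 hp
        · intro hr
          exact absurd hr (Set.notMem_empty r)
      rw [this, Set.ncard_empty]
  refine le_trans (Finset.sum_le_sum fun p _ => h2 p) ?_
  rw [← Finset.sum_filter, Finset.sum_const, smul_eq_mul]
  refine Nat.mul_le_mul_right _ (le_of_eq ?_)
  rw [Set.ncard_eq_toFinset_card']
  congr 1
  ext p
  simp

/-! ### K6: Chernoff bound -/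

/-- K6: few sequences hit `D` (density `p`) at most `p L / 4` times. -/
theorem chernoff {A : Type} [Fintype A] (L : ℕ) (D : Set A) (p : ℝ)
    (hD : p * Fintype.card A ≤ D.ncard) :
    ({ω : Fin L → A | 4 * ({j | ω j ∈ D}.ncard : ℝ) ≤ p * L}.ncard : ℝ) ≤
      Real.exp (-(p * L / 4)) * (Fintype.card A : ℝ) ^ L := by
  classical
  obtain ⟨w, hw⟩ : ∃ w : A → ℝ, w = fun a => if a ∈ D then (1 / 2 : ℝ) else 1 := ⟨_, rfl⟩
  have hA : (0 : ℝ) ≤ Fintype.card A := Nat.cast_nonneg _
  have hw0 : ∀ a, 0 < w a := by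
    intro a
    rw [hw]
    by_cases h : a ∈ D
    · simp only [h, if_true]
      norm_num
    · simp only [h, if_false]
      norm_num
  have hsum : ∑ a, w a = Fintype.card A - D.ncard / 2 := by
    have h1 : ∀ a, w a = 1 - 1 / 2 * (if a ∈ D then (1 : ℝ) else 0) := by
      intro a
      rw [hw]
      by_cases h : a ∈ D
      · simp only [h, if_true]
        norm_num
      · simp only [h, if_false]
        norm_num
    rw [Finset.sum_congr rfl fun a _ => h1 a, Finset.sum_sub_distrib, Finset.sum_const,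
      card_univ, nsmul_eq_mul, mul_one, ← Finset.mul_sum, sum_ind]
    ring
  have hexp : ∑ a, w a ≤ Fintype.card A * Real.exp (-(p / 2)) := by
    rw [hsum]
    have h1 : -(p / 2) + 1 ≤ Real.exp (-(p / 2)) := Real.add_one_le_exp _
    have h2 := mul_le_mul_of_nonneg_left h1 hA
    nlinarith
  have htot : ∑ ω : Fin L → A, ∏ j, w (ω j) ≤
      (Fintype.card A : ℝ) ^ L * Real.exp (-(p * L / 2)) := by
    rw [← Fintype.sum_pow]
    refine le_trans (pow_le_pow_left₀ (Finset.sum_nonneg fun a _ => (hw0 a).le) hexp L) ?_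
    rw [mul_pow, ← Real.exp_nat_mul]
    refine le_of_eq ?_
    congr 2
    ring
  obtain ⟨Bd, hBd⟩ : ∃ Bd : Set (Fin L → A),
      Bd = {ω | 4 * ({j | ω j ∈ D}.ncard : ℝ) ≤ p * L} := ⟨_, rfl⟩
  rw [← hBd]
  have hbad : ∀ ω ∈ Bd, Real.exp (-(p * L / 4)) ≤ ∏ j, w (ω j) := by
    intro ω hω
    rw [hBd] at hω
    have hω' : 4 * ({j | ω j ∈ D}.ncard : ℝ) ≤ p * L := hω
    have h1 : Real.exp (-({j | ω j ∈ D}.ncard : ℝ)) ≤ ∏ j, w (ω j) := by
      have h2 : ({j | ω j ∈ D}.ncard : ℝ) = ∑ j, (if j ∈ {j | ω j ∈ D} then (1 : ℝ) else 0) :=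
        (sum_ind _).symm
      rw [h2, ← Finset.sum_neg_distrib, Real.exp_sum]
      refine Finset.prod_le_prod (fun j _ => (Real.exp_pos _).le) fun j _ => ?_
      rw [hw]
      by_cases h : ω j ∈ D
      · rw [if_pos (show j ∈ {j | ω j ∈ D} from h)]
        simp only [h, if_true]
        rw [Real.exp_neg, one_div]
        have h3 : (2 : ℝ) ≤ Real.exp 1 := by
          have := Real.add_one_le_exp (1 : ℝ)
          linarith
        exact inv_anti₀ (by norm_num) h3
      · rw [if_neg (show j ∉ {j | ω j ∈ D} from h)]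
        simp only [h, if_false]
        rw [neg_zero, Real.exp_zero]
    refine le_trans (Real.exp_le_exp.2 ?_) h1
    linarith
  have h3 : (Bd.ncard : ℝ) * Real.exp (-(p * L / 4)) ≤ ∑ ω : Fin L → A, ∏ j, w (ω j) := by
    rw [← sum_ind Bd, Finset.sum_mul]
    refine Finset.sum_le_sum fun ω _ => ?_
    by_cases h : ω ∈ Bd
    · rw [if_pos h, one_mul]
      exact hbad ω h
    · rw [if_neg h, zero_mul]
      exact Finset.prod_nonneg fun j _ => (hw0 _).le
  have h4 := le_trans h3 htot
  have h5 : Real.exp (-(p * L / 2)) = Real.exp (-(p * L / 4)) * Real.exp (-(p * L / 4)) := by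
    rw [← Real.exp_add]
    congr 1
    ring
  rw [h5] at h4
  have h6 := Real.exp_pos (-(p * L / 4))
  refine le_of_mul_le_mul_right ?_ h6
  linarith

end Pool.Agent.KK
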