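import Pool.Agent.Helper13_KK.Count

/-!
Squad KK (MP_747bc0_co), block K: the family lemma.
-/

set_option autoImplicit false

namespace Pool.Agent.KK

open Finset Function

/-- The ordered pairs of different indices whose tuples meet. -/
def meets {L m : ℕ} {V : Type} (ω : Fin L → Fin m → V) : Set (Fin L × Fin L) :=
  {p | p.1 ≠ p.2 ∧ ∃ i j, ω p.1 i = ω p.2 j}

theorem ncard_meet {L m : ℕ} {V : Type} [Fintype V] (a b : Fin L) (hab : a ≠ b) (i j : Fin m) :
    {ω : Fin L → Fin m → V | ω a i = ω b j}.ncard ≤ Fintype.card V ^ (L * m - 1) := by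
  have h1 := ncard_dep (V := V) (ι := Fin L × Fin m) (a, i) (fun g => g (b, j))
    fun f g h => h (b, j) (fun h2 => hab (congrArg Prod.fst h2).symm)
  rw [Fintype.card_prod, Fintype.card_fin, Fintype.card_fin] at h1
  refine le_trans (le_of_eq ?_) h1
  exact ncard_equiv (Equiv.curry (Fin L) (Fin m) V).symm _ _ fun x => Iff.rfl

theorem sum_meets {L m : ℕ} {V : Type} [Fintype V] :
    ∑ ω : Fin L → Fin m → V, (meets ω).ncard ≤ (L * m) ^ 2 * Fintype.card V ^ (L * m - 1) := by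
  classical
  have h1 : ∀ ω : Fin L → Fin m → V, (meets ω).ncard ≤
      ∑ q ∈ (univ : Finset ((Fin L × Fin L) × (Fin m × Fin m))),
        if q.1.1 ≠ q.1.2 ∧ ω q.1.1 q.2.1 = ω q.1.2 q.2.2 then 1 else 0 := by
    intro ω
    rw [← Finset.card_filter]
    have h2 : (meets ω).ncard = (univ.filter fun p : Fin L × Fin L => p ∈ meets ω).card := by
      rw [Set.ncard_eq_toFinset_card']
      congr 1
      ext p
      simp
    rw [h2]
    refine Finset.card_le_card_of_surjOn (fun q => q.1) ?_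
    intro p hp
    have hp' : p ∈ meets ω := (Finset.mem_filter.1 (Finset.mem_coe.1 hp)).2
    obtain ⟨h3, i, j, h4⟩ := hp'
    exact ⟨(p, (i, j)), Finset.mem_coe.2 (Finset.mem_filter.2 ⟨mem_univ _, h3, h4⟩), rfl⟩
  refine le_trans (Finset.sum_le_sum fun ω _ => h1 ω) ?_
  rw [Finset.sum_comm]
  have h5 : ∀ q ∈ (univ : Finset ((Fin L × Fin L) × (Fin m × Fin m))),
      ∑ ω : Fin L → Fin m → V, (if q.1.1 ≠ q.1.2 ∧ ω q.1.1 q.2.1 = ω q.1.2 q.2.2 then 1 else 0) ≤
        Fintype.card V ^ (L * m - 1) := by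
    intro q _
    rw [← Finset.card_filter]
    by_cases hq : q.1.1 = q.1.2
    · have : (univ.filter fun ω : Fin L → Fin m → V =>
          q.1.1 ≠ q.1.2 ∧ ω q.1.1 q.2.1 = ω q.1.2 q.2.2) = ∅ := by
        rw [Finset.filter_eq_empty_iff]
        intro ω _ h
        exact h.1 hq
      rw [this, Finset.card_empty]
      exact Nat.zero_le _
    · refine le_trans (le_of_eq ?_) (ncard_meet q.1.1 q.1.2 hq q.2.1 q.2.2)
      rw [Set.ncard_eq_toFinset_card']
      congr 1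
      ext ω
      simp [hq]
  refine le_trans (Finset.sum_le_card_nsmul _ _ _ h5) ?_
  rw [card_univ, Fintype.card_prod, Fintype.card_prod, Fintype.card_prod, Fintype.card_fin,
    Fintype.card_fin, smul_eq_mul]
  exact le_of_eq (by ring)

/-- The core of the family lemma, for fixed `L` and `V`. -/
theorem family_core {m L : ℕ} {V I : Type} [Fintype V] [Fintype I] (hm : 0 < m) (hL : 0 < L)
    (hV : 0 < Fintype.card V) (ξ : ℝ) (hξ : 0 < ξ) (D : I → Set (Fin m → V))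
    (hD : ∀ i, ξ * (Fintype.card V : ℝ) ^ m ≤ (D i).ncard)
    (h1 : (Fintype.card I : ℝ) * Real.exp (-(ξ * L / 4)) ≤ 1 / 2)
    (h2 : 32 * (m : ℝ) ^ 2 * L ≤ ξ * Fintype.card V) :
    ∃ F : Finset (Fin m → V), F.card ≤ L ∧ (∀ f ∈ F, ∃ i, f ∈ D i) ∧
      (∀ f ∈ F, ∀ g ∈ F, f ≠ g → ∀ a b, f a ≠ g b) ∧
      ∀ i, ξ * L / 8 ≤ ({f | f ∈ F ∧ f ∈ D i}.ncard : ℝ) := by
  classical
  have hn0 : (0 : ℝ) < Fintype.card V := by exact_mod_cast hV
  have hL0 : (0 : ℝ) < L := by exact_mod_cast hL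
  have hm0 : (0 : ℝ) < m := by exact_mod_cast hm
  obtain ⟨T, hT⟩ : ∃ T : ℝ, T = (Fintype.card V : ℝ) ^ (L * m) := ⟨_, rfl⟩
  have hT0 : 0 < T := by rw [hT]; positivity
  -- bad events of Chernoff type
  obtain ⟨B1, hB1⟩ : ∃ B1 : I → Set (Fin L → Fin m → V),
      B1 = fun i => {ω | 4 * ({j | ω j ∈ D i}.ncard : ℝ) ≤ ξ * L} := ⟨_, rfl⟩
  have c1 : ∀ i, ((B1 i).ncard : ℝ) ≤ Real.exp (-(ξ * L / 4)) * T := by
    intro i
    have := chernoff (A := Fin m → V) L (D i) ξ (by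
      rw [Fintype.card_fun, Fintype.card_fin]
      push_cast
      exact hD i)
    rw [Fintype.card_fun, Fintype.card_fin] at this
    push_cast at this
    rw [hB1, hT, mul_comm L m, pow_mul]
    exact this
  -- bad event of Markov type
  obtain ⟨B2, hB2⟩ : ∃ B2 : Set (Fin L → Fin m → V),
      B2 = {ω | ξ * L / 8 < ((meets ω).ncard : ℝ)} := ⟨_, rfl⟩
  have c2 : (B2.ncard : ℝ) ≤ T / 4 := by
    have h3 : (B2.ncard : ℝ) * (ξ * L / 8) ≤ ∑ ω : Fin L → Fin m → V, ((meets ω).ncard : ℝ) := by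
      rw [← sum_ind B2, Finset.sum_mul]
      refine Finset.sum_le_sum fun ω _ => ?_
      by_cases h : ω ∈ B2
      · rw [if_pos h, one_mul]
        rw [hB2] at h
        exact le_of_lt h
      · rw [if_neg h, zero_mul]
        exact Nat.cast_nonneg _
    have h4 : (∑ ω : Fin L → Fin m → V, ((meets ω).ncard : ℝ)) ≤
        ((L : ℝ) * m) ^ 2 * (Fintype.card V : ℝ) ^ (L * m - 1) := by
      have := sum_meets (L := L) (m := m) (V := V)
      exact_mod_cast this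
    have h5 : T = Fintype.card V * (Fintype.card V : ℝ) ^ (L * m - 1) := by
      rw [hT, ← pow_succ', Nat.sub_add_cancel (Nat.mul_pos hL hm)]
    have h6 : 0 ≤ (Fintype.card V : ℝ) ^ (L * m - 1) := by positivity
    have h7 : ((L : ℝ) * m) ^ 2 * (Fintype.card V : ℝ) ^ (L * m - 1) ≤ T / 4 * (ξ * L / 8) := by
      rw [h5]
      have h8 := mul_le_mul_of_nonneg_right h2 (mul_nonneg hL0.le h6)
      nlinarith
    refine le_of_mul_le_mul_right (le_trans h3 (le_trans h4 h7)) (by positivity)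
  -- a good sequence
  have c3 : ∃ ω : Fin L → Fin m → V, (∀ i, ω ∉ B1 i) ∧ ω ∉ B2 := by
    by_contra hc
    push Not at hc
    have h3 : (Set.univ : Set (Fin L → Fin m → V)) ⊆ (⋃ i ∈ (univ : Finset I), B1 i) ∪ B2 := by
      intro ω _
      by_cases h : ∀ i, ω ∉ B1 i
      · right
        exact hc ω h
      · left
        push Not at h
        obtain ⟨i, hi⟩ := h
        exact Set.mem_biUnion (Finset.mem_coe.2 (mem_univ i)) hi
    have h4 := le_trans (Set.ncard_le_ncard h3 (Set.toFinite _)) (Set.ncard_union_le _ _)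
    have h5 := le_trans h4 (Nat.add_le_add_right (ncard_union_bound _ _) _)
    have h6 : (Set.univ : Set (Fin L → Fin m → V)).ncard = Fintype.card V ^ (L * m) := by
      rw [Set.ncard_univ, Nat.card_eq_fintype_card, Fintype.card_fun, Fintype.card_fun,
        Fintype.card_fin, Fintype.card_fin, ← pow_mul, mul_comm]
    rw [h6] at h5
    have h7 : T ≤ (∑ i, ((B1 i).ncard : ℝ)) + B2.ncard := by
      rw [hT]
      exact_mod_cast h5
    have h8 : ∑ i, ((B1 i).ncard : ℝ) ≤ Fintype.card I * (Real.exp (-(ξ * L / 4)) * T) := by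
      refine le_trans (Finset.sum_le_card_nsmul _ _ _ fun i _ => c1 i) ?_
      rw [card_univ, nsmul_eq_mul]
    have h9 := mul_le_mul_of_nonneg_right h1 hT0.le
    nlinarith
  obtain ⟨ω, hω1, hω2⟩ := c3
  -- the good indices
  obtain ⟨K, hK⟩ : ∃ K : Finset (Fin L),
      K = univ.filter fun a => (∃ i, ω a ∈ D i) ∧ ∀ b, (a, b) ∉ meets ω := ⟨_, rfl⟩
  have hinj : ∀ a ∈ K, ∀ b, a ≠ b → ∀ i j, ω a i ≠ ω b j := by
    intro a ha b hab i j h
    rw [hK] at ha
    exact (Finset.mem_filter.1 ha).2.2 b ⟨hab, i, j, h⟩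
  refine ⟨K.image ω, le_trans Finset.card_image_le ?_, ?_, ?_, ?_⟩
  · refine le_trans (Finset.card_le_univ K) ?_
    rw [Fintype.card_fin]
  · intro f hf
    obtain ⟨a, ha, rfl⟩ := Finset.mem_image.1 hf
    rw [hK] at ha
    exact (Finset.mem_filter.1 ha).2.1
  · intro f hf g hg hfg i j
    obtain ⟨a, ha, rfl⟩ := Finset.mem_image.1 hf
    obtain ⟨b, hb, rfl⟩ := Finset.mem_image.1 hg
    exact hinj a ha b (fun h => hfg (by rw [h])) i j
  · intro i
    have h3 : {j | ω j ∈ D i} ⊆ {j | j ∈ K ∧ ω j ∈ D i} ∪ {j | ∃ b, (j, b) ∈ meets ω} := by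
      intro j hj
      by_cases h : ∃ b, (j, b) ∈ meets ω
      · right
        exact h
      · left
        push Not at h
        refine ⟨?_, hj⟩
        rw [hK]
        exact Finset.mem_filter.2 ⟨mem_univ _, ⟨i, hj⟩, h⟩
    have h4 := le_trans (Set.ncard_le_ncard h3 (Set.toFinite _)) (Set.ncard_union_le _ _)
    have h5 : {j | ∃ b, (j, b) ∈ meets ω}.ncard ≤ (meets ω).ncard := by
      have h6 : {j | ∃ b, (j, b) ∈ meets ω} = Prod.fst '' meets ω := by
        ext j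
        constructor
        · rintro ⟨b, hb⟩
          exact ⟨(j, b), hb, rfl⟩
        · rintro ⟨⟨j', b⟩, hb, rfl⟩
          exact ⟨b, hb⟩
      rw [h6]
      exact Set.ncard_image_le (Set.toFinite _)
    have h7 : {j | j ∈ K ∧ ω j ∈ D i}.ncard ≤ {f | f ∈ K.image ω ∧ f ∈ D i}.ncard := by
      refine Set.ncard_le_ncard_of_injOn ω ?_ ?_ (Set.toFinite _)
      · rintro j ⟨hj1, hj2⟩
        exact ⟨Finset.mem_image_of_mem _ hj1, hj2⟩
      · rintro a ⟨ha, _⟩ b ⟨hb, _⟩ h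
        by_contra hab
        exact hinj a ha b hab ⟨0, hm⟩ ⟨0, hm⟩ (congrFun h ⟨0, hm⟩)
    have h8 : ξ * L < 4 * ({j | ω j ∈ D i}.ncard : ℝ) := by
      have := hω1 i
      rw [hB1] at this
      exact not_le.1 this
    have h9 : ((meets ω).ncard : ℝ) ≤ ξ * L / 8 := by
      rw [hB2] at hω2
      exact not_lt.1 hω2
    have h10 : ({j | ω j ∈ D i}.ncard : ℝ) ≤
        {f | f ∈ K.image ω ∧ f ∈ D i}.ncard + (meets ω).ncard := by
      exact_mod_cast le_trans h4 (Nat.add_le_add h7 h5)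
    linarith

theorem pow_mul_exp_small (c : ℕ) (b : ℝ) (hb : 0 < b) :
    ∃ n₀ : ℕ, ∀ n : ℕ, n₀ ≤ n → (n : ℝ) ^ c * Real.exp (-(b * n)) ≤ 1 / 2 := by
  have h1 := Real.tendsto_pow_mul_exp_neg_atTop_nhds_zero c
  have h2 : Filter.Tendsto (fun n : ℕ => b * (n : ℝ)) Filter.atTop Filter.atTop :=
    Filter.Tendsto.const_mul_atTop hb tendsto_natCast_atTop_atTop
  have h3 := (h1.comp h2).eventually (gt_mem_nhds (show (0 : ℝ) < b ^ c / 2 by positivity))
  obtain ⟨n₀, hn₀⟩ := Filter.eventually_atTop.1 h3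
  refine ⟨n₀, fun n hn => ?_⟩
  have h4 : (b * (n : ℝ)) ^ c * Real.exp (-(b * n)) < b ^ c / 2 := hn₀ n hn
  rw [mul_pow] at h4
  have h5 : 0 < b ^ c := by positivity
  have h6 : b ^ c * ((n : ℝ) ^ c * Real.exp (-(b * n))) ≤ b ^ c * (1 / 2) := by linarith
  exact le_of_mul_le_mul_left h6 h5

/-- K7, FAMILY LEMMA: polynomially many sets of `m`-tuples of density `ξ` are all hit linearly often
by one family of at most `γ n` pairwise disjoint tuples. -/
theorem family (m c : ℕ) (hm : 0 < m) (ξ γ : ℝ) (hξ : 0 < ξ) (hγ : 0 < γ)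
    (hγξ : 32 * (m : ℝ) ^ 2 * γ ≤ ξ) :
    ∃ n₀ : ℕ, ∀ (V I : Type) [Fintype V] [Fintype I], n₀ ≤ Fintype.card V →
      Fintype.card I ≤ Fintype.card V ^ c → ∀ D : I → Set (Fin m → V),
      (∀ i, ξ * (Fintype.card V : ℝ) ^ m ≤ (D i).ncard) →
      ∃ F : Finset (Fin m → V), (F.card : ℝ) ≤ γ * Fintype.card V ∧ (∀ f ∈ F, ∃ i, f ∈ D i) ∧
        (∀ f ∈ F, ∀ g ∈ F, f ≠ g → ∀ a b, f a ≠ g b) ∧
        ∀ i, ξ * γ * Fintype.card V / 16 ≤ ({f | f ∈ F ∧ f ∈ D i}.ncard : ℝ) := by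
  obtain ⟨n₁, hn₁⟩ := pow_mul_exp_small c (ξ * γ / 8) (by positivity)
  obtain ⟨n₂, hn₂⟩ := exists_nat_ge (2 / γ)
  refine ⟨max n₁ (max n₂ 1), ?_⟩
  intro V I _ _ hV hI D hD
  obtain ⟨n, hn⟩ : ∃ n : ℕ, n = Fintype.card V := ⟨_, rfl⟩
  rw [← hn] at hV hI hD ⊢
  have h1 : n₁ ≤ n := le_trans (le_max_left _ _) hV
  have h2 : n₂ ≤ n := le_trans (le_trans (le_max_left _ _) (le_max_right _ _)) hV
  have h3 : 1 ≤ n := le_trans (le_trans (le_max_right _ _) (le_max_right _ _)) hV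
  have h2' : 2 / γ ≤ n := le_trans hn₂ (by exact_mod_cast h2)
  rw [div_le_iff₀ hγ] at h2'
  have hn0 : (0 : ℝ) < n := by exact_mod_cast h3
  obtain ⟨L, hL⟩ : ∃ L : ℕ, L = ⌊γ * n⌋₊ := ⟨_, rfl⟩
  have hL1 : (L : ℝ) ≤ γ * n := by
    rw [hL]
    exact Nat.floor_le (by positivity)
  have hL2 : γ * n < L + 1 := by
    rw [hL]
    exact Nat.lt_floor_add_one _
  have hL3 : γ * n / 2 ≤ L := by linarith
  have hL4 : (0 : ℝ) < L := lt_of_lt_of_le (by positivity) hL3
  obtain ⟨F, hF1, hF2, hF3, hF4⟩ := family_core hm (by exact_mod_cast hL4)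
    (by rw [← hn]; exact h3) ξ hξ D (by rw [← hn]; exact hD) (by
      have h4 : (Fintype.card I : ℝ) ≤ (n : ℝ) ^ c := by exact_mod_cast hI
      have h5 : Real.exp (-(ξ * L / 4)) ≤ Real.exp (-(ξ * γ / 8 * n)) := by
        refine Real.exp_le_exp.2 ?_
        nlinarith
      exact le_trans (mul_le_mul h4 h5 (Real.exp_pos _).le (by positivity)) (hn₁ n h1)) (by
      rw [← hn]
      have h4 : 0 ≤ 32 * (m : ℝ) ^ 2 := by positivity
      have h5 := mul_le_mul_of_nonneg_left hL1 h4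
      nlinarith)
  refine ⟨F, ?_, hF2, hF3, fun i => ?_⟩
  · have : (F.card : ℝ) ≤ L := by exact_mod_cast hF1
    linarith
  · refine le_trans ?_ (hF4 i)
    nlinarith

end Pool.Agent.KK
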